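import Mathlib

/-!
Asymptotics of the closed formula for the crossing density of the strip (project E of helper9,
MP_35f495_pr): with `m = 5, 7, 11, 13, ...`, `n = 4, 8, 10, 14, ...`,
`pE L = (-1)^L (6 ∏_{j<L} m_j/(m_j-3) - 4 ∏_{j<L} n_j/(n_j-3)) / 2` satisfies `L * pE L → √3/2`.
-/

open Real Filter Topology

namespace CrossAsym

/-- `5, 7, 11, 13, 17, 19, ...` -/
noncomputable def mE (j : ℕ) : ℝ := 5 + 6 * ((j / 2 : ℕ) : ℝ) + 2 * ((j % 2 : ℕ) : ℝ)

/-- `4, 8, 10, 14, 16, 20, ...` -/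
noncomputable def nE (j : ℕ) : ℝ := 4 + 6 * ((j / 2 : ℕ) : ℝ) + 4 * ((j % 2 : ℕ) : ℝ)

noncomputable def AE (L : ℕ) : ℝ := ∏ j ∈ Finset.range L, mE j / (mE j - 3)

noncomputable def BE (L : ℕ) : ℝ := ∏ j ∈ Finset.range L, nE j / (nE j - 3)

noncomputable def pE (L : ℕ) : ℝ := (-1) ^ L * (6 * AE L - 4 * BE L) / 2

/-- the auxiliary product -/
noncomputable def WE (k : ℕ) : ℝ := ∏ i ∈ Finset.range k,
  ((1 - (1 / 6 : ℝ) ^ 2 / ((i : ℝ) + 1) ^ 2) / (1 - (1 / 3 : ℝ) ^ 2 / ((i : ℝ) + 1) ^ 2))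

theorem mE_even (k : ℕ) : mE (2 * k) = 6 * k + 5 := by
  unfold mE
  have h1 : 2 * k / 2 = k := by omega
  have h2 : 2 * k % 2 = 0 := by omega
  rw [h1, h2]
  push_cast
  ring

theorem mE_odd (k : ℕ) : mE (2 * k + 1) = 6 * k + 7 := by
  unfold mE
  have h1 : (2 * k + 1) / 2 = k := by omega
  have h2 : (2 * k + 1) % 2 = 1 := by omega
  rw [h1, h2]
  push_cast
  ring

theorem nE_even (k : ℕ) : nE (2 * k) = 6 * k + 4 := by
  unfold nE
  have h1 : 2 * k / 2 = k := by omega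
  have h2 : 2 * k % 2 = 0 := by omega
  rw [h1, h2]
  push_cast
  ring

theorem nE_odd (k : ℕ) : nE (2 * k + 1) = 6 * k + 8 := by
  unfold nE
  have h1 : (2 * k + 1) / 2 = k := by omega
  have h2 : (2 * k + 1) % 2 = 1 := by omega
  rw [h1, h2]
  push_cast
  ring

theorem fac_eq (i : ℕ) :
    (1 - (1 / 6 : ℝ) ^ 2 / ((i : ℝ) + 1) ^ 2) / (1 - (1 / 3 : ℝ) ^ 2 / ((i : ℝ) + 1) ^ 2) =
      ((6 * i + 5) * (6 * i + 7)) / ((6 * i + 4) * (6 * i + 8)) := by
  have hi : (0 : ℝ) ≤ i := Nat.cast_nonneg i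
  have h1 : (1 - (1 / 6 : ℝ) ^ 2 / ((i : ℝ) + 1) ^ 2) =
      ((6 * i + 5) * (6 * i + 7)) / (36 * ((i : ℝ) + 1) ^ 2) := by
    field_simp
    ring
  have h2 : (1 - (1 / 3 : ℝ) ^ 2 / ((i : ℝ) + 1) ^ 2) =
      ((6 * i + 4) * (6 * i + 8)) / (36 * ((i : ℝ) + 1) ^ 2) := by
    field_simp
    ring
  rw [h1, h2, div_div_div_cancel_right₀ (by positivity)]

theorem WE_succ (k : ℕ) :
    WE (k + 1) = WE k * (((6 * k + 5) * (6 * k + 7)) / ((6 * k + 4) * (6 * k + 8))) := by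
  unfold WE
  rw [Finset.prod_range_succ, fac_eq]

theorem WE_pos (k : ℕ) : 0 < WE k := by
  induction k with
  | zero => simp [WE]
  | succ k ih =>
    rw [WE_succ]
    positivity

theorem WE_tendsto : Tendsto WE atTop (𝓝 (2 / √3)) := by
  have h1 := Real.tendsto_euler_sin_prod (1 / 6)
  have h2 := Real.tendsto_euler_sin_prod (1 / 3)
  have s1 : Real.sin (π * (1 / 6)) = 1 / 2 := by
    rw [mul_one_div, Real.sin_pi_div_six]
  have s2 : Real.sin (π * (1 / 3)) = √3 / 2 := by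
    rw [mul_one_div, Real.sin_pi_div_three]
  rw [s1] at h1
  rw [s2] at h2
  have hne : √3 / 2 ≠ 0 := by positivity
  have h3 := (h1.div h2 hne).const_mul 2
  have hp := Real.pi_pos
  have e : 2 * ((1 / 2) / (√3 / 2)) = 2 / √3 := by
    field_simp
  rw [e] at h3
  refine h3.congr ?_
  intro n
  unfold WE
  rw [Finset.prod_div_distrib]
  have hd : ∏ j ∈ Finset.range n, ((1 : ℝ) - (1 / 3) ^ 2 / ((j : ℝ) + 1) ^ 2) ≠ 0 := by
    rw [Finset.prod_ne_zero_iff]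
    intro i _
    have hi : (0 : ℝ) ≤ i := Nat.cast_nonneg i
    have h2 : (1 - (1 / 3 : ℝ) ^ 2 / ((i : ℝ) + 1) ^ 2) =
        ((6 * i + 4) * (6 * i + 8)) / (36 * ((i : ℝ) + 1) ^ 2) := by
      field_simp
      ring
    rw [h2]
    positivity
  simp only [Pi.div_apply]
  field_simp
  ring

theorem AE_even (k : ℕ) : AE (2 * k) = (3 * k + 1) * WE k := by
  induction k with
  | zero => simp [AE, WE]
  | succ k ih =>
    have e : 2 * (k + 1) = 2 * k + 1 + 1 := by ring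
    rw [e]
    unfold AE at ih ⊢
    rw [Finset.prod_range_succ, Finset.prod_range_succ, ih, WE_succ, mE_even, mE_odd]
    have hk : (0 : ℝ) ≤ k := Nat.cast_nonneg k
    have e1 : (6 * (k : ℝ) + 5 - 3) = 6 * k + 2 := by ring
    have e2 : (6 * (k : ℝ) + 7 - 3) = 6 * k + 4 := by ring
    rw [e1, e2]
    push_cast
    field_simp
    ring

theorem BE_even (k : ℕ) : BE (2 * k) = (6 * k + 1) / WE k := by
  induction k with
  | zero => simp [BE, WE]
  | succ k ih =>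
    have e : 2 * (k + 1) = 2 * k + 1 + 1 := by ring
    rw [e]
    unfold BE at ih ⊢
    rw [Finset.prod_range_succ, Finset.prod_range_succ, ih, WE_succ, nE_even, nE_odd]
    have hk : (0 : ℝ) ≤ k := Nat.cast_nonneg k
    have hW := (WE_pos k).ne'
    have e1 : (6 * (k : ℝ) + 4 - 3) = 6 * k + 1 := by ring
    have e2 : (6 * (k : ℝ) + 8 - 3) = 6 * k + 5 := by ring
    rw [e1, e2]
    push_cast
    field_simp
    ring

/-- the ratio of the two terms -/
noncomputable def RE (k : ℕ) : ℝ := 6 * AE (2 * k) / (4 * BE (2 * k))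

theorem RE_eq (k : ℕ) : RE k = (6 * (3 * k + 1)) / (4 * (6 * k + 1)) * (WE k) ^ 2 := by
  unfold RE
  rw [AE_even, BE_even]
  have hW := (WE_pos k).ne'
  field_simp

theorem RE_pos (k : ℕ) : 0 < RE k := by
  rw [RE_eq]
  have := WE_pos k
  positivity

theorem RE_succ (k : ℕ) :
    RE (k + 1) = RE k * (((6 * k + 5) ^ 2 * (6 * k + 1) * (6 * k + 7)) /
      ((6 * k + 2) * (6 * k + 4) ^ 2 * (6 * k + 8))) := by
  rw [RE_eq, RE_eq, WE_succ]
  push_cast
  field_simp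
  ring

theorem RE_tendsto : Tendsto RE atTop (𝓝 1) := by
  have h1 : Tendsto (fun k : ℕ => (6 * (3 * (k : ℝ) + 1)) / (4 * (6 * k + 1))) atTop
      (𝓝 (3 / 4)) := by
    have h2 : Tendsto (fun k : ℕ => (3 / 4 : ℝ) + (3 / 4) * (1 / (6 * (k : ℝ) + 1))) atTop
        (𝓝 (3 / 4 + (3 / 4) * 0)) := by
      apply Tendsto.const_add
      apply Tendsto.const_mul
      have h3 : Tendsto (fun k : ℕ => 6 * (k : ℝ) + 1) atTop atTop := by
        apply tendsto_atTop_add_const_right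
        exact tendsto_natCast_atTop_atTop.const_mul_atTop (by norm_num)
      exact (tendsto_const_nhds.div_atTop h3)
    have e : (3 / 4 : ℝ) + (3 / 4) * 0 = 3 / 4 := by norm_num
    rw [e] at h2
    refine h2.congr ?_
    intro k
    field_simp
    ring
  have h4 := h1.mul (WE_tendsto.pow 2)
  have e : (3 / 4 : ℝ) * (2 / √3) ^ 2 = 1 := by
    rw [div_pow, Real.sq_sqrt (by norm_num)]
    norm_num
  rw [e] at h4
  refine h4.congr ?_
  intro k
  rw [RE_eq]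

/-- the step factor, written as `1 - ε` -/
theorem step_eq (k : ℕ) : (((6 * (k : ℝ) + 5) ^ 2 * (6 * k + 1) * (6 * k + 7)) /
      ((6 * k + 2) * (6 * k + 4) ^ 2 * (6 * k + 8))) =
    1 - 27 * (4 * k + 3) / (16 * (3 * k + 1) * (3 * k + 2) ^ 2 * (3 * k + 4)) := by
  have hk : (0 : ℝ) ≤ k := Nat.cast_nonneg k
  field_simp
  ring

theorem RE_lower (k : ℕ) : 1 + 1 / (24 * ((k : ℝ) + 1) ^ 2) ≤ RE k := by
  -- `RE k / L k` is antitone with limit `1`
  set Lk : ℕ → ℝ := fun k => 1 + 1 / (24 * ((k : ℝ) + 1) ^ 2) with hL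
  have hLpos : ∀ k, 0 < Lk k := by
    intro k
    simp only [hL]
    positivity
  have hstep : ∀ k : ℕ, RE (k + 1) / Lk (k + 1) ≤ RE k / Lk k := by
    intro k
    rw [RE_succ, step_eq]
    have hk : (0 : ℝ) ≤ k := Nat.cast_nonneg k
    rw [div_le_div_iff₀ (hLpos _) (hLpos _), mul_assoc]
    apply mul_le_mul_of_nonneg_left _ (RE_pos k).le
    simp only [hL]
    push_cast
    rw [← sub_nonneg]
    have e : (1 + 1 / (24 * ((k : ℝ) + 1 + 1) ^ 2)) -
        (1 - 27 * (4 * (k : ℝ) + 3) / (16 * (3 * k + 1) * (3 * k + 2) ^ 2 * (3 * k + 4))) *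
          (1 + 1 / (24 * ((k : ℝ) + 1) ^ 2)) =
        ((27 * (4 * (k : ℝ) + 3)) * (24 * ((k : ℝ) + 1) ^ 2 + 1) * ((k : ℝ) + 2) ^ 2 -
          (2 * k + 3) * (16 * (3 * k + 1) * (3 * k + 2) ^ 2 * (3 * k + 4))) /
        ((16 * (3 * k + 1) * (3 * k + 2) ^ 2 * (3 * k + 4)) * (24 * ((k : ℝ) + 1) ^ 2 *
          ((k : ℝ) + 2) ^ 2)) := by
      field_simp
      ring
    rw [e]
    apply div_nonneg
    · ring_nf
      positivity
    · positivity
  have hanti : Antitone (fun k => RE k / Lk k) := antitone_nat_of_succ_le hstep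
  have hlim : Tendsto (fun k => RE k / Lk k) atTop (𝓝 1) := by
    have h1 : Tendsto Lk atTop (𝓝 (1 + 0)) := by
      apply Tendsto.const_add
      have h3 : Tendsto (fun k : ℕ => 24 * ((k : ℝ) + 1) ^ 2) atTop atTop := by
        apply Tendsto.const_mul_atTop (by norm_num)
        apply (tendsto_pow_atTop (two_ne_zero)).comp
        exact tendsto_atTop_add_const_right _ _ tendsto_natCast_atTop_atTop
      exact tendsto_const_nhds.div_atTop h3
    have h5 := RE_tendsto.div h1 (by norm_num)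
    have e5 : (1 : ℝ) / (1 + 0) = 1 := by norm_num
    rw [e5] at h5
    exact h5
  have := hanti.le_of_tendsto hlim k
  rw [le_div_iff₀ (hLpos k), one_mul] at this
  exact this

theorem RE_upper (k : ℕ) (hk1 : 1 ≤ k) : RE k ≤ 1 + 1 / (24 * (k : ℝ) ^ 2) := by
  set Uk : ℕ → ℝ := fun j => 1 + 1 / (24 * ((j : ℝ) + 1) ^ 2) with hU
  have hUpos : ∀ j, 0 < Uk j := by
    intro j
    simp only [hU]
    positivity
  have hstep : ∀ j : ℕ, RE (j + 1) / Uk j ≤ RE (j + 1 + 1) / Uk (j + 1) := by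
    intro j
    rw [RE_succ (j + 1), step_eq (j + 1)]
    have hj : (0 : ℝ) ≤ j := Nat.cast_nonneg j
    rw [div_le_div_iff₀ (hUpos _) (hUpos _), mul_assoc]
    apply mul_le_mul_of_nonneg_left _ (RE_pos (j + 1)).le
    simp only [hU]
    push_cast
    rw [← sub_nonneg]
    have e : (1 - 27 * (4 * ((j : ℝ) + 1) + 3) /
          (16 * (3 * ((j : ℝ) + 1) + 1) * (3 * ((j : ℝ) + 1) + 2) ^ 2 * (3 * ((j : ℝ) + 1) + 4))) *
          (1 + 1 / (24 * ((j : ℝ) + 1) ^ 2)) - (1 + 1 / (24 * ((j : ℝ) + 1 + 1) ^ 2)) =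
        ((2 * (j : ℝ) + 3) *
          (16 * (3 * ((j : ℝ) + 1) + 1) * (3 * ((j : ℝ) + 1) + 2) ^ 2 * (3 * ((j : ℝ) + 1) + 4)) -
          (27 * (4 * ((j : ℝ) + 1) + 3)) * (24 * ((j : ℝ) + 1) ^ 2 + 1) * ((j : ℝ) + 2) ^ 2) /
        ((16 * (3 * ((j : ℝ) + 1) + 1) * (3 * ((j : ℝ) + 1) + 2) ^ 2 *
          (3 * ((j : ℝ) + 1) + 4)) * (24 * ((j : ℝ) + 1) ^ 2 * ((j : ℝ) + 2) ^ 2)) := by
      field_simp
      ring
    rw [e]
    apply div_nonneg
    · ring_nf
      positivity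
    · positivity
  have hmono : Monotone (fun j => RE (j + 1) / Uk j) := monotone_nat_of_le_succ hstep
  have hlim : Tendsto (fun j => RE (j + 1) / Uk j) atTop (𝓝 1) := by
    have h1 : Tendsto Uk atTop (𝓝 (1 + 0)) := by
      apply Tendsto.const_add
      have h3 : Tendsto (fun k : ℕ => 24 * ((k : ℝ) + 1) ^ 2) atTop atTop := by
        apply Tendsto.const_mul_atTop (by norm_num)
        apply (tendsto_pow_atTop (two_ne_zero)).comp
        exact tendsto_atTop_add_const_right _ _ tendsto_natCast_atTop_atTop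
      exact tendsto_const_nhds.div_atTop h3
    have h5 := ((tendsto_add_atTop_iff_nat 1).mpr RE_tendsto).div h1 (by norm_num)
    have e5 : (1 : ℝ) / (1 + 0) = 1 := by norm_num
    rw [e5] at h5
    exact h5
  obtain ⟨j, rfl⟩ : ∃ j, k = j + 1 := ⟨k - 1, by omega⟩
  have := hmono.ge_of_tendsto hlim j
  rw [div_le_one (hUpos j)] at this
  simp only [hU] at this
  push_cast
  exact this

/-- `k^2 (RE k - 1) → 1/24` -/
theorem RE_second : Tendsto (fun k : ℕ => (k : ℝ) ^ 2 * (RE k - 1)) atTop (𝓝 (1 / 24)) := by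
  have hlow : Tendsto (fun k : ℕ => (1 / 24 : ℝ) * (1 - 1 / ((k : ℝ) + 1)) ^ 2) atTop
      (𝓝 (1 / 24)) := by
    have h1 : Tendsto (fun k : ℕ => (1 : ℝ) / ((k : ℝ) + 1)) atTop (𝓝 0) :=
      tendsto_one_div_add_atTop_nhds_zero_nat
    have h2 := ((h1.const_sub 1).pow 2).const_mul (1 / 24 : ℝ)
    have e : (1 / 24 : ℝ) * (1 - 0) ^ 2 = 1 / 24 := by norm_num
    rw [e] at h2
    exact h2
  refine tendsto_of_tendsto_of_tendsto_of_le_of_le' hlow tendsto_const_nhds ?_ ?_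
  · filter_upwards with k
    have h := RE_lower k
    have hk : (0 : ℝ) ≤ k := Nat.cast_nonneg k
    have e : (1 / 24 : ℝ) * (1 - 1 / ((k : ℝ) + 1)) ^ 2 =
        (k : ℝ) ^ 2 * (1 / (24 * ((k : ℝ) + 1) ^ 2)) := by
      field_simp
      ring
    rw [e]
    apply mul_le_mul_of_nonneg_left _ (by positivity)
    linarith
  · filter_upwards [eventually_ge_atTop 1] with k hk
    have h := RE_upper k hk
    have hk0 : (0 : ℝ) < k := by exact_mod_cast hk
    have e : (1 / 24 : ℝ) = (k : ℝ) ^ 2 * (1 / (24 * (k : ℝ) ^ 2)) := by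
      field_simp
    rw [e]
    apply mul_le_mul_of_nonneg_left _ (by positivity)
    linarith

theorem inv_k : Tendsto (fun k : ℕ => (1 : ℝ) / k) atTop (𝓝 0) :=
  tendsto_const_nhds.div_atTop tendsto_natCast_atTop_atTop

theorem WE_inv : Tendsto (fun k : ℕ => 1 / WE k) atTop (𝓝 (√3 / 2)) := by
  have h := WE_tendsto.inv₀ (by positivity)
  have e : (2 / √3)⁻¹ = √3 / 2 := by rw [inv_div]
  rw [e] at h
  refine h.congr ?_
  intro k
  rw [one_div]

theorem D_even (k : ℕ) : 6 * AE (2 * k) - 4 * BE (2 * k) = 4 * ((6 * k + 1) / WE k) * (RE k - 1) := by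
  have hB : 0 < BE (2 * k) := by
    rw [BE_even]
    have := WE_pos k
    positivity
  unfold RE
  rw [← BE_even]
  field_simp

/-- even case, in terms of `k` -/
theorem D_even_lim : Tendsto (fun k : ℕ => (k : ℝ) * (6 * AE (2 * k) - 4 * BE (2 * k))) atTop
    (𝓝 (√3 / 2)) := by
  have h1 : Tendsto (fun k : ℕ => (4 * (6 + 1 / (k : ℝ))) * (1 / WE k) *
      ((k : ℝ) ^ 2 * (RE k - 1))) atTop (𝓝 ((4 * (6 + 0)) * (√3 / 2) * (1 / 24))) := by
    apply Tendsto.mul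
    · apply Tendsto.mul
      · exact (inv_k.const_add 6).const_mul 4
      · exact WE_inv
    · exact RE_second
  have e : (4 * (6 + 0)) * (√3 / 2) * (1 / 24) = √3 / 2 := by ring
  rw [e] at h1
  refine h1.congr' ?_
  filter_upwards [eventually_ge_atTop 1] with k hk
  have hk0 : (0 : ℝ) < k := by exact_mod_cast hk
  have hW := (WE_pos k).ne'
  rw [D_even]
  field_simp

theorem D_odd (k : ℕ) : 6 * AE (2 * k + 1) - 4 * BE (2 * k + 1) =
    (6 * AE (2 * k) - 4 * BE (2 * k)) * ((6 * k + 5) / (6 * k + 2)) -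
      12 / (WE k * (6 * k + 2)) := by
  have hk : (0 : ℝ) ≤ k := Nat.cast_nonneg k
  have hW := (WE_pos k).ne'
  have hA : AE (2 * k + 1) = AE (2 * k) * ((6 * k + 5) / (6 * k + 2)) := by
    unfold AE
    rw [Finset.prod_range_succ, mE_even]
    congr 2
    ring
  have hB : BE (2 * k + 1) = BE (2 * k) * ((6 * k + 4) / (6 * k + 1)) := by
    unfold BE
    rw [Finset.prod_range_succ, nE_even]
    congr 2
    ring
  rw [hA, hB, BE_even]
  field_simp
  ring

theorem pE_even (k : ℕ) : ((2 * k : ℕ) : ℝ) * pE (2 * k) =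
    (k : ℝ) * (6 * AE (2 * k) - 4 * BE (2 * k)) := by
  unfold pE
  have : ((-1 : ℝ)) ^ (2 * k) = 1 := by rw [pow_mul]; norm_num
  rw [this]
  push_cast
  ring

theorem pE_odd (k : ℕ) : ((2 * k + 1 : ℕ) : ℝ) * pE (2 * k + 1) =
    6 * ((2 * k + 1) / (6 * k + 2)) * (1 / WE k) -
      (1 / 2) * (2 * k + 1) * (6 * AE (2 * k) - 4 * BE (2 * k)) * ((6 * k + 5) / (6 * k + 2)) := by
  unfold pE
  have h1 : ((-1 : ℝ)) ^ (2 * k + 1) = -1 := by rw [pow_succ, pow_mul]; norm_num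
  rw [h1, D_odd]
  have hk : (0 : ℝ) ≤ k := Nat.cast_nonneg k
  have hW := (WE_pos k).ne'
  push_cast
  field_simp
  ring

theorem pE_even_lim : Tendsto (fun k : ℕ => ((2 * k : ℕ) : ℝ) * pE (2 * k)) atTop
    (𝓝 (√3 / 2)) := by
  refine D_even_lim.congr ?_
  intro k
  rw [pE_even]

theorem pE_odd_lim : Tendsto (fun k : ℕ => ((2 * k + 1 : ℕ) : ℝ) * pE (2 * k + 1)) atTop
    (𝓝 (√3 / 2)) := by
  have h1 : Tendsto (fun k : ℕ => (2 + 1 / (k : ℝ)) / (6 + 2 * (1 / (k : ℝ)))) atTop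
      (𝓝 ((2 + 0) / (6 + 2 * 0))) :=
    (inv_k.const_add 2).div ((inv_k.const_mul 2).const_add 6) (by norm_num)
  have h2 : Tendsto (fun k : ℕ => (6 + 5 * (1 / (k : ℝ))) / (6 + 2 * (1 / (k : ℝ)))) atTop
      (𝓝 ((6 + 5 * 0) / (6 + 2 * 0))) :=
    ((inv_k.const_mul 5).const_add 6).div ((inv_k.const_mul 2).const_add 6) (by norm_num)
  have h3 : Tendsto (fun k : ℕ => 2 + 1 / (k : ℝ)) atTop (𝓝 (2 + 0)) := inv_k.const_add 2
  have h4 := ((h1.const_mul 6).mul WE_inv).sub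
    (((h3.const_mul (1 / 2)).mul D_even_lim).mul h2)
  have e : 6 * ((2 + 0) / (6 + 2 * 0)) * (√3 / 2) -
      1 / 2 * (2 + 0) * (√3 / 2) * ((6 + 5 * 0) / (6 + 2 * 0)) = √3 / 2 := by
    ring
  rw [e] at h4
  refine h4.congr' ?_
  filter_upwards [eventually_ge_atTop 1] with k hk
  have hk0 : (0 : ℝ) < k := by exact_mod_cast hk
  have hW := (WE_pos k).ne'
  rw [pE_odd]
  field_simp

/-- MAIN: `L * p_L → √3 / 2`. -/
theorem pE_lim : Tendsto (fun L : ℕ => (L : ℝ) * pE L) atTop (𝓝 (√3 / 2)) := by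
  rw [tendsto_def]
  intro s hs
  have h1 := pE_even_lim hs
  have h2 := pE_odd_lim hs
  simp only [mem_map, mem_atTop_sets, Set.mem_preimage] at h1 h2 ⊢
  obtain ⟨a, ha⟩ := h1
  obtain ⟨b, hb⟩ := h2
  refine ⟨2 * a + 2 * b + 1, fun L hL => ?_⟩
  rcases Nat.even_or_odd' L with ⟨k, rfl | rfl⟩
  · exact ha k (by omega)
  · exact hb k (by omega)

end CrossAsym
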