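import Mathlib

set_option autoImplicit false

open CategoryTheory Abelian RingTheory.Sequence

namespace Pool.Agent.Helper66

open MvPolynomial

variable {k : Type} [Field k] {N : ℕ}

lemma X_mul_mem_span_X {s : Set (Fin N)} {i : Fin N} (hi : i ∉ s)
    {p : MvPolynomial (Fin N) k} (h : X i * p ∈ Ideal.span (X '' s : Set (MvPolynomial (Fin N) k))) :
    p ∈ Ideal.span (X '' s : Set (MvPolynomial (Fin N) k)) := by
  rw [MvPolynomial.mem_ideal_span_X_image] at h ⊢
  intro m hm
  have h1 : (Finsupp.single i 1 + m) ∈ (X i * p : MvPolynomial (Fin N) k).support := by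
    rw [MvPolynomial.mem_support_iff] at hm ⊢
    rwa [MvPolynomial.coeff_X_mul]
  obtain ⟨j, hj, hj2⟩ := h _ h1
  refine ⟨j, hj, ?_⟩
  have hij : i ≠ j := fun h => hi (h ▸ hj)
  simpa [Finsupp.single_apply, hij] using hj2

lemma isRegular_X : IsRegular (MvPolynomial (Fin N) k)
    (List.ofFn (fun i : Fin N => (X i : MvPolynomial (Fin N) k))) := by
  have key : ∀ i : ℕ, i ≤ N → Ideal.ofList ((List.ofFn (fun i : Fin N => (X i : MvPolynomial (Fin N) k))).take i)
      = Ideal.span (X '' {j : Fin N | (j : ℕ) < i}) := by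
    intro i hi
    unfold Ideal.ofList
    congr 1
    ext x
    simp only [Set.mem_ofPred_eq, Set.mem_image, List.mem_take_iff_getElem, List.getElem_ofFn,
      List.length_ofFn]
    constructor
    · rintro ⟨j, hj, rfl⟩
      exact ⟨⟨j, by omega⟩, by simp; omega, rfl⟩
    · rintro ⟨j, hj, rfl⟩
      exact ⟨j, by omega, rfl⟩
  refine ⟨⟨?_⟩, ?_⟩
  · intro i hi
    rw [List.length_ofFn] at hi
    rw [List.getElem_ofFn, smul_eq_mul, Ideal.mul_top, key i hi.le]
    rw [isSMulRegular_iff_right_eq_zero_of_smul]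
    intro x hx
    obtain ⟨p, rfl⟩ := Ideal.Quotient.mk_surjective x
    rw [Ideal.Quotient.eq_zero_iff_mem]
    apply X_mul_mem_span_X (i := ⟨i, hi⟩) (by simp)
    rw [← Ideal.Quotient.eq_zero_iff_mem]
    exact hx
  · rw [smul_eq_mul, Ideal.mul_top]
    intro h
    have h2 := key N le_rfl
    rw [List.take_of_length_le (by simp)] at h2
    rw [h2] at h
    have h1 : (1 : MvPolynomial (Fin N) k) ∈ Ideal.span (X '' {j : Fin N | (j : ℕ) < N} : Set (MvPolynomial (Fin N) k)) := by
      rw [← h]; trivial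
    rw [MvPolynomial.mem_ideal_span_X_image] at h1
    obtain ⟨j, _, hj⟩ := h1 0 (by simp)
    simp at hj


section general

variable {R : Type} [CommRing R]

lemma subsingleton_ext_pi (K : ModuleCat.{0} R) {N : ℕ}
    (h : ∀ i < N, Subsingleton (Ext K (ModuleCat.of R R) i)) (s : ℕ) :
    ∀ i < N, Subsingleton (Ext K (ModuleCat.of R (Fin s → R)) i) := by
  intro i hi
  have := h i hi
  refine subsingleton_of_forall_eq 0 fun e => ?_
  let pr : ∀ j : Fin s, ModuleCat.of R (Fin s → R) ⟶ ModuleCat.of R R :=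
    fun j => ModuleCat.ofHom (LinearMap.proj j)
  let inc : ∀ j : Fin s, ModuleCat.of R R ⟶ ModuleCat.of R (Fin s → R) :=
    fun j => ModuleCat.ofHom (LinearMap.single R (fun _ => R) j)
  have hid : 𝟙 (ModuleCat.of R (Fin s → R)) = ∑ j, pr j ≫ inc j := by
    ext x
    simp [pr, inc]
  rw [← e.comp_mk₀_id, hid, Ext.mk₀_sum, Ext.comp_sum]
  refine Finset.sum_eq_zero fun j _ => ?_
  rw [← Ext.mk₀_comp_mk₀, ← Ext.comp_assoc_of_second_deg_zero,
    Subsingleton.elim (e.comp (Ext.mk₀ (pr j)) (add_zero i)) 0, Ext.zero_comp]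

variable [IsNoetherianRing R]

lemma subsingleton_ext_of_hasProjectiveDimensionLT (K : ModuleCat.{0} R) {N : ℕ}
    (h : ∀ i < N, Subsingleton (Ext K (ModuleCat.of R R) i)) (n : ℕ) :
    ∀ (M : ModuleCat.{0} R) [Module.Finite R M], HasProjectiveDimensionLT M (n + 1) →
      ∀ i, i + n < N → Subsingleton (Ext K M i) := by
  induction n with
  | zero =>
    intro M _ hM i hi
    obtain ⟨s, f, surjf⟩ := Module.Finite.exists_fin' R M
    have hP : Module.Projective R M := by
      rw [IsProjective.iff_projective]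
      exact projective_iff_hasProjectiveDimensionLT_one.2 hM
    obtain ⟨g, hg⟩ := Module.projective_lifting_property f LinearMap.id surjf
    have hgf : ModuleCat.ofHom g ≫ ModuleCat.ofHom f = 𝟙 M := by
      rw [← ModuleCat.ofHom_comp, hg]; rfl
    have := subsingleton_ext_pi K h s i (by omega)
    refine subsingleton_of_forall_eq 0 fun e => ?_
    rw [← e.comp_mk₀_id, ← hgf, ← Ext.mk₀_comp_mk₀, ← Ext.comp_assoc_of_second_deg_zero,
      Subsingleton.elim (e.comp (Ext.mk₀ (ModuleCat.ofHom g)) (add_zero i)) 0, Ext.zero_comp]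
  | succ n ih =>
    intro M _ hM i hi
    obtain ⟨s, f, surjf⟩ := Module.Finite.exists_fin' R M
    let S : ShortComplex (ModuleCat.{0} R) := f.shortComplexKer
    have hS : S.ShortExact := LinearMap.shortExact_shortComplexKer surjf
    have hP : Projective S.X₂ := ModuleCat.projective_of_free (Pi.basisFun R (Fin s))
    have h1 : HasProjectiveDimensionLT S.X₁ (n + 1) :=
      (hS.hasProjectiveDimensionLT_X₃_iff n hP).1 hM
    have h2 : Subsingleton (Ext K S.X₁ (i + 1)) := ih S.X₁ h1 (i + 1) (by omega)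
    have h3 : Subsingleton (Ext K S.X₂ i) := subsingleton_ext_pi K h s i (by omega)
    refine subsingleton_of_forall_eq 0 fun e => ?_
    obtain ⟨x₂, rfl⟩ := Ext.covariant_sequence_exact₃ K hS e (rfl : i + 1 = i + 1)
      (Subsingleton.elim _ _)
    rw [Subsingleton.elim x₂ 0, Ext.zero_comp]

end general

/-- If `R/I` has a nonzero element killed by all variables, its projective dimension is at least
the number of variables. -/
theorem not_hasProjectiveDimensionLE_of_socle (I : Ideal (MvPolynomial (Fin N) k))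
    (s : MvPolynomial (Fin N) k) (hs : s ∉ I) (hX : ∀ i, X i * s ∈ I) (n : ℕ) (hn : n < N) :
    ¬ HasProjectiveDimensionLE (ModuleCat.of (MvPolynomial (Fin N) k)
      (MvPolynomial (Fin N) k ⧸ I)) n := by
  intro hpd
  let m : Ideal (MvPolynomial (Fin N) k) := Ideal.span (Set.range X)
  let K : ModuleCat.{0} (MvPolynomial (Fin N) k) := ModuleCat.of _ (MvPolynomial (Fin N) k ⧸ m)
  have hm : m ≠ ⊤ := by
    intro h
    have h1 : (1 : MvPolynomial (Fin N) k) ∈ Ideal.span (X '' (Set.univ : Set (Fin N))) := by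
      rw [Set.image_univ]
      have : (1 : MvPolynomial (Fin N) k) ∈ m := by rw [h]; trivial
      exact this
    rw [MvPolynomial.mem_ideal_span_X_image] at h1
    obtain ⟨j, _, hj⟩ := h1 0 (by simp)
    simp at hj
  have hext : ∀ i < N, Subsingleton (Ext K (ModuleCat.of (MvPolynomial (Fin N) k)
      (MvPolynomial (Fin N) k)) i) := by
    have := ModuleCat.subsingleton_ext_of_exists_isRegular m K
      (by
        rw [Module.support_eq_zeroLocus]
        simp only [K]
        rw [Ideal.annihilator_quotient])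
      (ModuleCat.of (MvPolynomial (Fin N) k) (MvPolynomial (Fin N) k))
      (by
        rw [lt_top_iff_ne_top]
        show m • (⊤ : Ideal (MvPolynomial (Fin N) k)) ≠ ⊤
        rw [smul_eq_mul, Ideal.mul_top]
        exact hm)
      (List.ofFn (fun i : Fin N => (X i : MvPolynomial (Fin N) k)))
      (by
        intro r hr
        obtain ⟨i, rfl⟩ := (List.mem_ofFn' _ _).1 hr
        exact Ideal.subset_span ⟨i, rfl⟩)
      isRegular_X
    rwa [List.length_ofFn] at this
  have hsub := subsingleton_ext_of_hasProjectiveDimensionLT K hext n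
    (ModuleCat.of (MvPolynomial (Fin N) k) (MvPolynomial (Fin N) k ⧸ I)) hpd 0 (by omega)
  have hsub2 : Subsingleton (K ⟶ ModuleCat.of (MvPolynomial (Fin N) k)
      (MvPolynomial (Fin N) k ⧸ I)) := Ext.addEquiv₀.symm.subsingleton
  let φ : (MvPolynomial (Fin N) k ⧸ m) →ₗ[MvPolynomial (Fin N) k] (MvPolynomial (Fin N) k ⧸ I) :=
    Submodule.liftQ m (LinearMap.toSpanSingleton _ _ (Ideal.Quotient.mk I s)) (by
      rw [Submodule.span_le]
      rintro _ ⟨i, rfl⟩
      simp only [SetLike.mem_coe, LinearMap.mem_ker, LinearMap.toSpanSingleton_apply]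
      show Ideal.Quotient.mk I (X i * s) = 0
      rw [Ideal.Quotient.eq_zero_iff_mem]
      exact hX i)
  have h0 : ModuleCat.ofHom φ = (0 : K ⟶ _) := Subsingleton.elim _ _
  have h1 : φ (Submodule.Quotient.mk 1) = 0 := by
    have : (ModuleCat.ofHom φ).hom (Submodule.Quotient.mk 1) = (0 : K ⟶ _).hom (Submodule.Quotient.mk 1) := by
      rw [h0]
    simpa using this
  apply hs
  rw [← Ideal.Quotient.eq_zero_iff_mem]
  have h2 : φ (Submodule.Quotient.mk 1) = Ideal.Quotient.mk I s := by
    simp only [φ]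
    rw [Submodule.liftQ_apply, LinearMap.toSpanSingleton_apply, one_smul]
  rw [← h2, h1]

end Pool.Agent.Helper66
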