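import Mathlib

set_option autoImplicit false

namespace Pool.Agent.Helper66

open MvPolynomial

section vars

variable {k : Type} [Field k] {N : ℕ}

/-- A prime ideal containing the first `t` variables has height at least `t`. -/
lemma le_height_of_X_mem (t : ℕ) (ht : t ≤ N) (P : Ideal (MvPolynomial (Fin N) k)) [P.IsPrime]
    (hP : ∀ i : Fin N, (i : ℕ) < t → X i ∈ P) : (t : ℕ∞) ≤ P.height := by
  induction t generalizing P with
  | zero => simp
  | succ t ih =>
    let φ : MvPolynomial (Fin N) k →ₐ[k] MvPolynomial (Fin N) k :=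
      aeval (fun i : Fin N => if (i : ℕ) < t then 0 else X i)
    have : (RingHom.ker φ).IsPrime := RingHom.ker_isPrime φ
    have h1 : (t : ℕ∞) ≤ (RingHom.ker φ).height := by
      apply ih (by omega)
      intro i hi
      rw [RingHom.mem_ker]
      simp [φ, hi]
    have h2 : RingHom.ker φ < P := by
      refine lt_of_le_of_ne ?_ ?_
      · intro p hp
        rw [RingHom.mem_ker] at hp
        have key : (Ideal.Quotient.mk P).comp (φ : MvPolynomial (Fin N) k →+* _) =
            Ideal.Quotient.mk P := by
          apply MvPolynomial.ringHom_ext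
          · intro r
            simp [φ]
          · intro i
            by_cases hi : (i : ℕ) < t
            · have := hP i (by omega)
              simp only [φ, RingHom.coe_comp, Function.comp_apply, RingHom.coe_coe, aeval_X, hi,
                if_true, map_zero]
              exact (Ideal.Quotient.eq_zero_iff_mem.2 this).symm
            · simp [φ, hi]
        rw [← Ideal.Quotient.eq_zero_iff_mem, ← key]
        simp only [RingHom.coe_comp, Function.comp_apply, RingHom.coe_coe, hp, map_zero]
      · intro h
        have h3 : (X ⟨t, by omega⟩ : MvPolynomial (Fin N) k) ∈ RingHom.ker φ := by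
          rw [h]; exact hP _ (by simp)
        rw [RingHom.mem_ker] at h3
        simp [φ] at h3
    have h3 := Ideal.height_add_one_le_of_lt_of_isPrime h2
    push_cast
    exact le_trans (by gcongr) h3

end vars

section block

variable {k : Type} [Field k]


/-- the substitution -/
noncomputable def w (a : Fin 24) (b : Fin 3 → Fin 24) (S : Fin 3 → (MvPolynomial (Fin 24) k)) (t : ℕ) (i : Fin 24) :
    Localization.Away (X a : (MvPolynomial (Fin 24) k)) :=
  if i < 8 then 0 else
  if i = b 0 ∧ 0 < t then
    -(algebraMap (MvPolynomial (Fin 24) k) (Localization.Away (X a : (MvPolynomial (Fin 24) k))) (S 0)) * IsLocalization.Away.invSelf (X a : (MvPolynomial (Fin 24) k)) else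
  if i = b 1 ∧ 1 < t then
    -(algebraMap (MvPolynomial (Fin 24) k) (Localization.Away (X a : (MvPolynomial (Fin 24) k))) (S 1)) * IsLocalization.Away.invSelf (X a : (MvPolynomial (Fin 24) k)) else
  if i = b 2 ∧ 2 < t then
    -(algebraMap (MvPolynomial (Fin 24) k) (Localization.Away (X a : (MvPolynomial (Fin 24) k))) (S 2)) * IsLocalization.Away.invSelf (X a : (MvPolynomial (Fin 24) k)) else
  algebraMap (MvPolynomial (Fin 24) k) (Localization.Away (X a : (MvPolynomial (Fin 24) k))) (X i)

lemma le_height_block (a : Fin 24) (b : Fin 3 → Fin 24) (S : Fin 3 → (MvPolynomial (Fin 24) k))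
    (ha : 8 ≤ a) (hb : ∀ r, 8 ≤ b r) (hab : ∀ r, a ≠ b r) (hinj : Function.Injective b)
    (hS : ∀ t r, aeval (w a b S t) (S r) = algebraMap (MvPolynomial (Fin 24) k) (Localization.Away (X a : (MvPolynomial (Fin 24) k))) (S r))
    (hg0 : ∀ r, X (b r) * X a + S r ≠ 0)
    (P : Ideal (MvPolynomial (Fin 24) k)) [P.IsPrime] (hP : ∀ i : Fin 24, i < 8 → X i ∈ P) (haP : X a ∉ P)
    (hgP : ∀ r, X (b r) * X a + S r ∈ P) : (11 : ℕ∞) ≤ P.height := by
  classical
  have hXa : (X a : (MvPolynomial (Fin 24) k)) ≠ 0 := X_ne_zero a
  have hdom : IsDomain (Localization.Away (X a : (MvPolynomial (Fin 24) k))) :=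
    IsLocalization.isDomain_localization (by
      rw [Submonoid.powers_le]
      exact mem_nonZeroDivisors_of_ne_zero hXa)
  have hinjD : Function.Injective (algebraMap (MvPolynomial (Fin 24) k) (Localization.Away (X a : (MvPolynomial (Fin 24) k)))) :=
    IsLocalization.injective _ (M := Submonoid.powers (X a : (MvPolynomial (Fin 24) k))) (by
      rw [Submonoid.powers_le]
      exact mem_nonZeroDivisors_of_ne_zero hXa)
  let φ : ℕ → ((MvPolynomial (Fin 24) k) →ₐ[k] Localization.Away (X a : (MvPolynomial (Fin 24) k))) := fun t => aeval (w a b S t)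
  have hprime : ∀ t, (RingHom.ker (φ t)).IsPrime := fun t => RingHom.ker_isPrime _
  have hinv : (algebraMap (MvPolynomial (Fin 24) k) (Localization.Away (X a : (MvPolynomial (Fin 24) k))) (X a)) *
    IsLocalization.Away.invSelf (X a : (MvPolynomial (Fin 24) k)) = 1 := IsLocalization.Away.mul_invSelf _
  -- values
  have hval_lt : ∀ t i, i < 8 → φ t (X i) = 0 := by
    intro t i hi
    simp [φ, w, hi]
  have hval_b : ∀ t (r : Fin 3), (r : ℕ) < t → φ t (X (b r)) =
      -(algebraMap (MvPolynomial (Fin 24) k) (Localization.Away (X a : (MvPolynomial (Fin 24) k))) (S r)) *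
        IsLocalization.Away.invSelf (X a : (MvPolynomial (Fin 24) k)) := by
    intro t r hr
    have h8 : ¬ b r < 8 := not_lt.2 (hb r)
    have h01 : b 1 ≠ b 0 := fun h => by have := hinj h; simp at this
    have h02 : b 2 ≠ b 0 := fun h => by have := hinj h; simp at this
    have h12 : b 2 ≠ b 1 := fun h => by have := hinj h; simp at this
    simp only [φ, aeval_X, w, h8, if_false]
    fin_cases r
    · simp at hr ⊢; intro h; omega
    · simp at hr ⊢
      rw [if_neg (by simp [h01]), if_pos hr]
    · simp at hr ⊢
      rw [if_neg (by simp [h02]), if_neg (by simp [h12]), if_pos hr]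
  have hval_b' : ∀ t (r : Fin 3), t ≤ (r : ℕ) → φ t (X (b r)) =
      algebraMap (MvPolynomial (Fin 24) k) (Localization.Away (X a : (MvPolynomial (Fin 24) k))) (X (b r)) := by
    intro t r hr
    have h8 : ¬ b r < 8 := not_lt.2 (hb r)
    have h01 : b 1 ≠ b 0 := fun h => by have := hinj h; simp at this
    have h02 : b 2 ≠ b 0 := fun h => by have := hinj h; simp at this
    have h12 : b 2 ≠ b 1 := fun h => by have := hinj h; simp at this
    simp only [φ, aeval_X, w, h8, if_false]
    fin_cases r
    · simp at hr ⊢
      rw [if_neg (by omega), if_neg (by simp [h01.symm]), if_neg (by simp [h02.symm])]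
    · simp at hr ⊢
      rw [if_neg (by simp [h01]), if_neg (by omega), if_neg (by simp [h12.symm])]
    · simp at hr ⊢
      rw [if_neg (by simp [h02]), if_neg (by simp [h12]), if_neg (by omega)]
  have hval_o : ∀ t i, 8 ≤ i → (∀ r, i ≠ b r) → φ t (X i) =
      algebraMap (MvPolynomial (Fin 24) k) (Localization.Away (X a : (MvPolynomial (Fin 24) k))) (X i) := by
    intro t i h8 hi
    simp [φ, w, not_lt.2 h8, hi]
  have hval_a : ∀ t, φ t (X a) = algebraMap (MvPolynomial (Fin 24) k) (Localization.Away (X a : (MvPolynomial (Fin 24) k))) (X a) :=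
    fun t => hval_o t a ha hab
  have hker_g : ∀ t (r : Fin 3), (r : ℕ) < t → φ t (X (b r) * X a + S r) = 0 := by
    intro t r hr
    rw [map_add, map_mul, hval_b t r hr, hval_a]
    have : φ t (S r) = algebraMap (MvPolynomial (Fin 24) k) (Localization.Away (X a : (MvPolynomial (Fin 24) k))) (S r) := hS t r
    rw [this]
    linear_combination (-(algebraMap (MvPolynomial (Fin 24) k) (Localization.Away (X a : (MvPolynomial (Fin 24) k))) (S r))) * hinv
  -- general comparison
  have comp : ∀ (T : Type) [CommRing T] (ψ : (MvPolynomial (Fin 24) k) →+* T) (t : ℕ), IsUnit (ψ (X a)) →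
      (∀ i : Fin 24, i < 8 → ψ (X i) = 0) →
      (∀ r : Fin 3, (r : ℕ) < t → ψ (X (b r) * X a + S r) = 0) →
      RingHom.ker (φ t) ≤ RingHom.ker ψ := by
    intro T _ ψ t hu h8 hg p hp
    have key : (IsLocalization.Away.lift (S := Localization.Away (X a : (MvPolynomial (Fin 24) k))) (X a) hu).comp
        (φ t : (MvPolynomial (Fin 24) k) →+* Localization.Away (X a : (MvPolynomial (Fin 24) k))) = ψ := by
      apply MvPolynomial.ringHom_ext
      · intro c
        have : (φ t) (C c) = algebraMap (MvPolynomial (Fin 24) k) (Localization.Away (X a : (MvPolynomial (Fin 24) k))) (C c) := by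
          rw [← MvPolynomial.algebraMap_eq, AlgHom.commutes, ← IsScalarTower.algebraMap_apply]
        simp only [RingHom.coe_comp, Function.comp_apply, RingHom.coe_coe]
        rw [this, IsLocalization.Away.lift_eq]
      · intro i
        simp only [RingHom.coe_comp, Function.comp_apply, RingHom.coe_coe]
        by_cases hi8 : i < 8
        · rw [hval_lt t i hi8, h8 i hi8, map_zero]
        · by_cases hbr : ∃ r, i = b r
          · obtain ⟨r, rfl⟩ := hbr
            by_cases hrt : (r : ℕ) < t
            · rw [hval_b t r hrt]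
              have h1 := hg r hrt
              rw [map_add, map_mul] at h1
              rw [map_mul, map_neg, IsLocalization.Away.lift_eq]
              have h2 := congrArg (IsLocalization.Away.lift (S := Localization.Away (X a : (MvPolynomial (Fin 24) k)))
                (X a) hu) hinv
              rw [map_mul, IsLocalization.Away.lift_eq, map_one] at h2
              linear_combination (ψ (X (b r))) * h2 - (IsLocalization.Away.lift
                (S := Localization.Away (X a : (MvPolynomial (Fin 24) k))) (X a) hu
                (IsLocalization.Away.invSelf (X a : (MvPolynomial (Fin 24) k)))) * h1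
            · rw [hval_b' t r (by omega), IsLocalization.Away.lift_eq]
          · push Not at hbr
            rw [hval_o t i (not_lt.1 hi8) hbr, IsLocalization.Away.lift_eq]
    rw [RingHom.mem_ker] at hp ⊢
    rw [← key]
    simp only [RingHom.coe_comp, Function.comp_apply, RingHom.coe_coe, hp, map_zero]
  have hunit : IsUnit (algebraMap (MvPolynomial (Fin 24) k) (Localization.Away (X a : (MvPolynomial (Fin 24) k))) (X a)) :=
    IsLocalization.Away.algebraMap_isUnit _
  have hstep : ∀ t : ℕ, t < 3 → RingHom.ker (φ t) < RingHom.ker (φ (t + 1)) := by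
    intro t ht
    refine lt_of_le_of_ne ?_ ?_
    · have := comp _ (φ (t + 1) : (MvPolynomial (Fin 24) k) →+* Localization.Away (X a : (MvPolynomial (Fin 24) k))) t
        (by rw [RingHom.coe_coe, hval_a]; exact hunit)
        (by intro i hi; exact hval_lt (t + 1) i hi)
        (by intro r hr; exact hker_g (t + 1) r (by omega))
      exact this
    · intro h
      have h1 : X (b ⟨t, ht⟩) * X a + S ⟨t, ht⟩ ∈ RingHom.ker (φ (t + 1)) := by
        rw [RingHom.mem_ker]
        exact hker_g (t + 1) ⟨t, ht⟩ (by simp)
      rw [← h, RingHom.mem_ker, map_add, map_mul, hval_b' t ⟨t, ht⟩ (by simp), hval_a] at h1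
      have h2 : φ t (S ⟨t, ht⟩) = algebraMap (MvPolynomial (Fin 24) k) (Localization.Away (X a : (MvPolynomial (Fin 24) k))) (S ⟨t, ht⟩) :=
        hS t _
      rw [h2, ← map_mul, ← map_add] at h1
      exact hg0 _ (hinjD (by rw [h1, map_zero]))
  have hlast : RingHom.ker (φ 3) ≤ P := by
    let L := FractionRing ((MvPolynomial (Fin 24) k) ⧸ P)
    let ψ : (MvPolynomial (Fin 24) k) →+* L := (algebraMap ((MvPolynomial (Fin 24) k) ⧸ P) L).comp (Ideal.Quotient.mk P)
    have hψ : ∀ p, ψ p = 0 ↔ p ∈ P := by
      intro p
      simp only [ψ, RingHom.coe_comp, Function.comp_apply]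
      rw [← Ideal.Quotient.eq_zero_iff_mem]
      constructor
      · intro h
        exact (IsFractionRing.injective ((MvPolynomial (Fin 24) k) ⧸ P) L) (by rw [h, map_zero])
      · intro h
        rw [h, map_zero]
    have := comp L ψ 3 (by
        rw [isUnit_iff_ne_zero, Ne, hψ]; exact haP)
      (by intro i hi; rw [hψ]; exact hP i hi)
      (by intro r _; rw [hψ]; exact hgP r)
    intro p hp
    exact (hψ p).1 (this hp)
  have h0 : (8 : ℕ∞) ≤ (RingHom.ker (φ 0)).height := by
    have := le_height_of_X_mem (k := k) (N := 24) 8 (by norm_num) (RingHom.ker (φ 0))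
      (by
        intro i hi
        rw [RingHom.mem_ker]
        exact hval_lt 0 i (by rw [Fin.lt_def]; simpa using hi))
    exact_mod_cast this
  have h1 := Ideal.height_add_one_le_of_lt_of_isPrime (hstep 0 (by norm_num))
  have h2 := Ideal.height_add_one_le_of_lt_of_isPrime (hstep 1 (by norm_num))
  have h3 := Ideal.height_add_one_le_of_lt_of_isPrime (hstep 2 (by norm_num))
  have h4 := Ideal.height_mono hlast
  calc (11 : ℕ∞) = 8 + 1 + 1 + 1 := by norm_num
    _ ≤ (RingHom.ker (φ 0)).height + 1 + 1 + 1 := by gcongr
    _ ≤ (RingHom.ker (φ 1)).height + 1 + 1 := by gcongr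
    _ ≤ (RingHom.ker (φ 2)).height + 1 := by gcongr
    _ ≤ (RingHom.ker (φ 3)).height := h3
    _ ≤ P.height := h4

end block

end Pool.Agent.Helper66
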