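import Mathlib

set_option autoImplicit false

namespace Pool.Agent.Helper66

section ident

variable {Q : Type} [CommRing Q]
  {x1 x2 x3 x4 y1 y2 y3 y4 a1 a2 a3 a4 b1 b2 b3 b4 : Q}

lemma socle_x4
    (hx1 : x1 ^ 2 = 0) (hx2 : x2 ^ 2 = 0) (hx3 : x3 ^ 2 = 0)
    (h0 : x1 * y1 + x2 * y2 + x3 * y3 + x4 * y4 = 0) :
    x4 * (a4 * y4 * (x1 * x2 * x3 * y1 * y2 * y3)) = 0 := by
  linear_combination (a4 * (x1 * x2 * x3 * y1 * y2 * y3)) * h0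
    - (a4 * y1 * (x2 * x3 * y1 * y2 * y3)) * hx1
    - (a4 * y2 * (x1 * x3 * y1 * y2 * y3)) * hx2
    - (a4 * y3 * (x1 * x2 * y1 * y2 * y3)) * hx3

lemma socle_y4
    (hx1 : x1 ^ 2 = 0) (hx2 : x2 ^ 2 = 0) (hx3 : x3 ^ 2 = 0)
    (hq : x4 ^ 2 - y4 ^ 2 = 0)
    (hf : a1 * x1 + a2 * x2 + a3 * x3 + a4 * x4 = 0) :
    y4 * (a4 * y4 * (x1 * x2 * x3 * y1 * y2 * y3)) = 0 := by
  linear_combination -(a4 * (x1 * x2 * x3 * y1 * y2 * y3)) * hq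
    + (x4 * (x1 * x2 * x3 * y1 * y2 * y3)) * hf
    - (x4 * a1 * (x2 * x3 * y1 * y2 * y3)) * hx1
    - (x4 * a2 * (x1 * x3 * y1 * y2 * y3)) * hx2
    - (x4 * a3 * (x1 * x2 * y1 * y2 * y3)) * hx3

lemma socle_a1
    (hx2 : x2 ^ 2 = 0) (hx3 : x3 ^ 2 = 0)
    (hy1 : y1 ^ 2 = 0) (hy2 : y2 ^ 2 = 0) (hy3 : y3 ^ 2 = 0)
    (h0 : x1 * y1 + x2 * y2 + x3 * y3 + x4 * y4 = 0)
    (hf : a1 * x1 + a2 * x2 + a3 * x3 + a4 * x4 = 0) :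
    a1 * (a4 * y4 * (x1 * x2 * x3 * y1 * y2 * y3)) = 0 := by
  linear_combination (a4 * y4 * (x2 * x3 * y1 * y2 * y3)) * hf
    - (a4 * y4 * a2 * (x3 * y1 * y2 * y3)) * hx2
    - (a4 * y4 * a3 * (x2 * y1 * y2 * y3)) * hx3
    - (a4 ^ 2 * (x2 * x3 * y1 * y2 * y3)) * h0
    + (a4 ^ 2 * x1 * (x2 * x3 * y2 * y3)) * hy1
    + (a4 ^ 2 * x2 * (x2 * x3 * y1 * y3)) * hy2
    + (a4 ^ 2 * x3 * (x2 * x3 * y1 * y2)) * hy3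

/-- `a1 * E1 = s` where `E1 = x1 x2 x3 y2 y3 x4^2`. -/
lemma shift1
    (hx2 : x2 ^ 2 = 0) (hx3 : x3 ^ 2 = 0)
    (hq : x4 ^ 2 - y4 ^ 2 = 0)
    (h0 : x1 * y1 + x2 * y2 + x3 * y3 + x4 * y4 = 0)
    (hf : a1 * x1 + a2 * x2 + a3 * x3 + a4 * x4 = 0) :
    a1 * (x1 * x2 * x3 * y2 * y3 * x4 ^ 2) = a4 * y4 * (x1 * x2 * x3 * y1 * y2 * y3) := by
  linear_combination (x2 * x3 * y2 * y3 * x4 ^ 2) * hf
    - (a2 * x4 ^ 2 * x3 * y2 * y3) * hx2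
    - (a3 * x4 ^ 2 * x2 * y2 * y3) * hx3
    - (a4 * x4 * (x2 * x3 * y2 * y3)) * hq
    - (a4 * y4 * (x2 * x3 * y2 * y3)) * h0
    + (a4 * y4 * y2 * (x3 * y2 * y3)) * hx2
    + (a4 * y4 * y3 * (x2 * y2 * y3)) * hx3

lemma a4_E1
    (hx1 : x1 ^ 2 = 0) (hx2 : x2 ^ 2 = 0) (hx3 : x3 ^ 2 = 0)
    (hf : a1 * x1 + a2 * x2 + a3 * x3 + a4 * x4 = 0) :
    a4 * (x1 * x2 * x3 * y2 * y3 * x4 ^ 2) = 0 := by
  linear_combination (x4 * (x1 * x2 * x3 * y2 * y3)) * hf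
    - (x4 * a1 * (x2 * x3 * y2 * y3)) * hx1
    - (x4 * a2 * (x1 * x3 * y2 * y3)) * hx2
    - (x4 * a3 * (x1 * x2 * y2 * y3)) * hx3

lemma a2_E1
    (hx1 : x1 ^ 2 = 0) (hx3 : x3 ^ 2 = 0)
    (hy2 : y2 ^ 2 = 0)
    (hq : x4 ^ 2 - y4 ^ 2 = 0)
    (h0 : x1 * y1 + x2 * y2 + x3 * y3 + x4 * y4 = 0)
    (hf : a1 * x1 + a2 * x2 + a3 * x3 + a4 * x4 = 0) :
    a2 * (x1 * x2 * x3 * y2 * y3 * x4 ^ 2) = 0 := by
  linear_combination (x1 * x3 * y2 * y3 * x4 ^ 2) * hf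
    - (a1 * x4 ^ 2 * x3 * y2 * y3) * hx1
    - (a3 * x4 ^ 2 * x1 * y2 * y3) * hx3
    - (a4 * x4 * (x1 * x3 * y2 * y3)) * hq
    - (a4 * y4 * (x1 * x3 * y2 * y3)) * h0
    + (a4 * y4 * y1 * (x3 * y2 * y3)) * hx1
    + (a4 * y4 * x2 * (x1 * x3 * y3)) * hy2
    + (a4 * y4 * y3 * (x1 * y2 * y3)) * hx3

lemma socle_b1
    (hx1 : x1 ^ 2 = 0) (hx2 : x2 ^ 2 = 0) (hx3 : x3 ^ 2 = 0)
    (hy2 : y2 ^ 2 = 0) (hy3 : y3 ^ 2 = 0)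
    (hq : x4 ^ 2 - y4 ^ 2 = 0)
    (h0 : x1 * y1 + x2 * y2 + x3 * y3 + x4 * y4 = 0)
    (hf : a1 * x1 + a2 * x2 + a3 * x3 + a4 * x4 = 0)
    (hb : b1 * a1 + b2 * a2 + b3 * a3 + b4 * a4 = 0) :
    b1 * (a4 * y4 * (x1 * x2 * x3 * y1 * y2 * y3)) = 0 := by
  have e1 := shift1 (a1 := a1) (a2 := a2) (a3 := a3) (a4 := a4) hx2 hx3 hq h0 hf
  have e2 := a2_E1 (a1 := a1) (a2 := a2) (a3 := a3) (a4 := a4) hx1 hx3 hy2 hq h0 hf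
  have e4 := a4_E1 (y2 := y2) (y3 := y3) hx1 hx2 hx3 hf
  have e3 : a3 * (x1 * x2 * x3 * y2 * y3 * x4 ^ 2) = 0 := by
    have := a2_E1 (x1 := x1) (x2 := x3) (x3 := x2) (x4 := x4) (y1 := y1) (y2 := y3) (y3 := y2)
      (y4 := y4) (a1 := a1) (a2 := a3) (a3 := a2) (a4 := a4) hx1 hx2 hy3 hq
      (by linear_combination h0) (by linear_combination hf)
    linear_combination this
  linear_combination -b1 * e1 + (x1 * x2 * x3 * y2 * y3 * x4 ^ 2) * hb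
    - b2 * e2 - b3 * e3 - b4 * e4

lemma socle_a4
    (hx1 : x1 ^ 2 = 0) (hx2 : x2 ^ 2 = 0) (hx3 : x3 ^ 2 = 0)
    (hq : x4 ^ 2 - y4 ^ 2 = 0)
    (h0 : x1 * y1 + x2 * y2 + x3 * y3 + x4 * y4 = 0)
    (hf : a1 * x1 + a2 * x2 + a3 * x3 + a4 * x4 = 0) :
    a4 * (a4 * y4 * (x1 * x2 * x3 * y1 * y2 * y3)) = 0 := by
  have e1 := shift1 (a1 := a1) (a2 := a2) (a3 := a3) (a4 := a4) hx2 hx3 hq h0 hf
  have e4 := a4_E1 (y2 := y2) (y3 := y3) hx1 hx2 hx3 hf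
  linear_combination -a4 * e1 + a1 * e4

lemma socle_b4
    (hx1 : x1 ^ 2 = 0) (hx2 : x2 ^ 2 = 0) (hx3 : x3 ^ 2 = 0)
    (hy1 : y1 ^ 2 = 0) (hy2 : y2 ^ 2 = 0) (hy3 : y3 ^ 2 = 0)
    (h0 : x1 * y1 + x2 * y2 + x3 * y3 + x4 * y4 = 0)
    (hf : a1 * x1 + a2 * x2 + a3 * x3 + a4 * x4 = 0)
    (hb : b1 * a1 + b2 * a2 + b3 * a3 + b4 * a4 = 0) :
    b4 * (a4 * y4 * (x1 * x2 * x3 * y1 * y2 * y3)) = 0 := by
  have e1 : a1 * (y4 * (x1 * x2 * x3 * y1 * y2 * y3)) = 0 := by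
    linear_combination (y4 * (x2 * x3 * y1 * y2 * y3)) * hf
    - (y4 * a2 * (x3 * y1 * y2 * y3)) * hx2
    - (y4 * a3 * (x2 * y1 * y2 * y3)) * hx3
    - (a4 * (x2 * x3 * y1 * y2 * y3)) * h0
    + (a4 * x1 * (x2 * x3 * y2 * y3)) * hy1
    + (a4 * x2 * (x2 * x3 * y1 * y3)) * hy2
    + (a4 * x3 * (x2 * x3 * y1 * y2)) * hy3
  have e2 : a2 * (y4 * (x1 * x2 * x3 * y1 * y2 * y3)) = 0 := by
    linear_combination (y4 * (x1 * x3 * y1 * y2 * y3)) * hf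
    - (y4 * a1 * (x3 * y1 * y2 * y3)) * hx1
    - (y4 * a3 * (x1 * y1 * y2 * y3)) * hx3
    - (a4 * (x1 * x3 * y1 * y2 * y3)) * h0
    + (a4 * x1 * (x1 * x3 * y2 * y3)) * hy1
    + (a4 * x2 * (x1 * x3 * y1 * y3)) * hy2
    + (a4 * x3 * (x1 * x3 * y1 * y2)) * hy3
  have e3 : a3 * (y4 * (x1 * x2 * x3 * y1 * y2 * y3)) = 0 := by
    linear_combination (y4 * (x1 * x2 * y1 * y2 * y3)) * hf
    - (y4 * a1 * (x2 * y1 * y2 * y3)) * hx1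
    - (y4 * a2 * (x1 * y1 * y2 * y3)) * hx2
    - (a4 * (x1 * x2 * y1 * y2 * y3)) * h0
    + (a4 * x1 * (x1 * x2 * y2 * y3)) * hy1
    + (a4 * x2 * (x1 * x2 * y1 * y3)) * hy2
    + (a4 * x3 * (x1 * x2 * y1 * y2)) * hy3
  linear_combination (y4 * (x1 * x2 * x3 * y1 * y2 * y3)) * hb - b1 * e1 - b2 * e2 - b3 * e3

/-- All the socle relations. -/
lemma socle_all
    (hx1 : x1 ^ 2 = 0) (hx2 : x2 ^ 2 = 0) (hx3 : x3 ^ 2 = 0)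
    (hy1 : y1 ^ 2 = 0) (hy2 : y2 ^ 2 = 0) (hy3 : y3 ^ 2 = 0)
    (hq : x4 ^ 2 - y4 ^ 2 = 0)
    (h0 : x1 * y1 + x2 * y2 + x3 * y3 + x4 * y4 = 0)
    (hf : a1 * x1 + a2 * x2 + a3 * x3 + a4 * x4 = 0) :
    (x1 * (a4 * y4 * (x1 * x2 * x3 * y1 * y2 * y3)) = 0 ∧
      x2 * (a4 * y4 * (x1 * x2 * x3 * y1 * y2 * y3)) = 0 ∧
      x3 * (a4 * y4 * (x1 * x2 * x3 * y1 * y2 * y3)) = 0 ∧
      x4 * (a4 * y4 * (x1 * x2 * x3 * y1 * y2 * y3)) = 0) ∧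
    (y1 * (a4 * y4 * (x1 * x2 * x3 * y1 * y2 * y3)) = 0 ∧
      y2 * (a4 * y4 * (x1 * x2 * x3 * y1 * y2 * y3)) = 0 ∧
      y3 * (a4 * y4 * (x1 * x2 * x3 * y1 * y2 * y3)) = 0 ∧
      y4 * (a4 * y4 * (x1 * x2 * x3 * y1 * y2 * y3)) = 0) ∧
    (a1 * (a4 * y4 * (x1 * x2 * x3 * y1 * y2 * y3)) = 0 ∧
      a2 * (a4 * y4 * (x1 * x2 * x3 * y1 * y2 * y3)) = 0 ∧
      a3 * (a4 * y4 * (x1 * x2 * x3 * y1 * y2 * y3)) = 0 ∧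
      a4 * (a4 * y4 * (x1 * x2 * x3 * y1 * y2 * y3)) = 0) ∧
    (∀ b1 b2 b3 b4 : Q, b1 * a1 + b2 * a2 + b3 * a3 + b4 * a4 = 0 →
      b1 * (a4 * y4 * (x1 * x2 * x3 * y1 * y2 * y3)) = 0 ∧
      b2 * (a4 * y4 * (x1 * x2 * x3 * y1 * y2 * y3)) = 0 ∧
      b3 * (a4 * y4 * (x1 * x2 * x3 * y1 * y2 * y3)) = 0 ∧
      b4 * (a4 * y4 * (x1 * x2 * x3 * y1 * y2 * y3)) = 0) := by
  refine ⟨⟨?_, ?_, ?_, ?_⟩, ⟨?_, ?_, ?_, ?_⟩, ⟨?_, ?_, ?_, ?_⟩, ?_⟩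
  · linear_combination (a4 * y4 * (x2 * x3 * y1 * y2 * y3)) * hx1
  · linear_combination (a4 * y4 * (x1 * x3 * y1 * y2 * y3)) * hx2
  · linear_combination (a4 * y4 * (x1 * x2 * y1 * y2 * y3)) * hx3
  · exact socle_x4 hx1 hx2 hx3 h0
  · linear_combination (a4 * y4 * (x1 * x2 * x3 * y2 * y3)) * hy1
  · linear_combination (a4 * y4 * (x1 * x2 * x3 * y1 * y3)) * hy2
  · linear_combination (a4 * y4 * (x1 * x2 * x3 * y1 * y2)) * hy3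
  · exact socle_y4 hx1 hx2 hx3 hq hf
  · exact socle_a1 hx2 hx3 hy1 hy2 hy3 h0 hf
  · have := socle_a1 (x1 := x2) (x2 := x1) (x3 := x3) (x4 := x4) (y1 := y2) (y2 := y1) (y3 := y3)
      (y4 := y4) (a1 := a2) (a2 := a1) (a3 := a3) (a4 := a4) hx1 hx3 hy2 hy1 hy3
      (by linear_combination h0) (by linear_combination hf)
    linear_combination this
  · have := socle_a1 (x1 := x3) (x2 := x2) (x3 := x1) (x4 := x4) (y1 := y3) (y2 := y2) (y3 := y1)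
      (y4 := y4) (a1 := a3) (a2 := a2) (a3 := a1) (a4 := a4) hx2 hx1 hy3 hy2 hy1
      (by linear_combination h0) (by linear_combination hf)
    linear_combination this
  · exact socle_a4 hx1 hx2 hx3 hq h0 hf
  · intro b1 b2 b3 b4 hb
    refine ⟨?_, ?_, ?_, ?_⟩
    · exact socle_b1 hx1 hx2 hx3 hy2 hy3 hq h0 hf hb
    · have := socle_b1 (x1 := x2) (x2 := x1) (x3 := x3) (x4 := x4) (y1 := y2) (y2 := y1) (y3 := y3)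
        (y4 := y4) (a1 := a2) (a2 := a1) (a3 := a3) (a4 := a4) (b1 := b2) (b2 := b1) (b3 := b3)
        (b4 := b4) hx2 hx1 hx3 hy1 hy3 hq
        (by linear_combination h0) (by linear_combination hf) (by linear_combination hb)
      linear_combination this
    · have := socle_b1 (x1 := x3) (x2 := x2) (x3 := x1) (x4 := x4) (y1 := y3) (y2 := y2) (y3 := y1)
        (y4 := y4) (a1 := a3) (a2 := a2) (a3 := a1) (a4 := a4) (b1 := b3) (b2 := b2) (b3 := b1)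
        (b4 := b4) hx3 hx2 hx1 hy2 hy1 hq
        (by linear_combination h0) (by linear_combination hf) (by linear_combination hb)
      linear_combination this
    · exact socle_b4 hx1 hx2 hx3 hy1 hy2 hy3 h0 hf hb

end ident

end Pool.Agent.Helper66
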