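import Mathlib

set_option autoImplicit false

namespace Pool.Agent.Helper66

/-- The free rank four algebra `C[x, y]/(x * y + w, x ^ 2 - y ^ 2)` with basis `1, x, y, x ^ 2`. -/
@[ext] structure Q4 {C : Type} [CommRing C] (w : C) where
  a : C
  b : C
  c : C
  d : C

namespace Q4

variable {C : Type} [CommRing C] {w : C}

instance : Zero (Q4 w) := ⟨⟨0, 0, 0, 0⟩⟩
instance : One (Q4 w) := ⟨⟨1, 0, 0, 0⟩⟩
instance : Add (Q4 w) := ⟨fun p q => ⟨p.a + q.a, p.b + q.b, p.c + q.c, p.d + q.d⟩⟩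
instance : Neg (Q4 w) := ⟨fun p => ⟨-p.a, -p.b, -p.c, -p.d⟩⟩
instance : Sub (Q4 w) := ⟨fun p q => ⟨p.a - q.a, p.b - q.b, p.c - q.c, p.d - q.d⟩⟩
instance : Mul (Q4 w) := ⟨fun p q =>
  ⟨p.a * q.a - w * (p.b * q.c + p.c * q.b) + w ^ 2 * p.d * q.d,
   p.a * q.b + p.b * q.a - w * (p.c * q.d + p.d * q.c),
   p.a * q.c + p.c * q.a - w * (p.b * q.d + p.d * q.b),
   p.a * q.d + p.d * q.a + p.b * q.b + p.c * q.c⟩⟩

@[simp] lemma zero_a : (0 : Q4 w).a = 0 := rfl
@[simp] lemma zero_b : (0 : Q4 w).b = 0 := rfl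
@[simp] lemma zero_c : (0 : Q4 w).c = 0 := rfl
@[simp] lemma zero_d : (0 : Q4 w).d = 0 := rfl
@[simp] lemma one_a : (1 : Q4 w).a = 1 := rfl
@[simp] lemma one_b : (1 : Q4 w).b = 0 := rfl
@[simp] lemma one_c : (1 : Q4 w).c = 0 := rfl
@[simp] lemma one_d : (1 : Q4 w).d = 0 := rfl
@[simp] lemma add_a (p q : Q4 w) : (p + q).a = p.a + q.a := rfl
@[simp] lemma add_b (p q : Q4 w) : (p + q).b = p.b + q.b := rfl
@[simp] lemma add_c (p q : Q4 w) : (p + q).c = p.c + q.c := rfl
@[simp] lemma add_d (p q : Q4 w) : (p + q).d = p.d + q.d := rfl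
@[simp] lemma neg_a (p : Q4 w) : (-p).a = -p.a := rfl
@[simp] lemma neg_b (p : Q4 w) : (-p).b = -p.b := rfl
@[simp] lemma neg_c (p : Q4 w) : (-p).c = -p.c := rfl
@[simp] lemma neg_d (p : Q4 w) : (-p).d = -p.d := rfl
@[simp] lemma sub_a (p q : Q4 w) : (p - q).a = p.a - q.a := rfl
@[simp] lemma sub_b (p q : Q4 w) : (p - q).b = p.b - q.b := rfl
@[simp] lemma sub_c (p q : Q4 w) : (p - q).c = p.c - q.c := rfl
@[simp] lemma sub_d (p q : Q4 w) : (p - q).d = p.d - q.d := rfl
@[simp] lemma mul_a (p q : Q4 w) : (p * q).a =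
    p.a * q.a - w * (p.b * q.c + p.c * q.b) + w ^ 2 * p.d * q.d := rfl
@[simp] lemma mul_b (p q : Q4 w) : (p * q).b =
    p.a * q.b + p.b * q.a - w * (p.c * q.d + p.d * q.c) := rfl
@[simp] lemma mul_c (p q : Q4 w) : (p * q).c =
    p.a * q.c + p.c * q.a - w * (p.b * q.d + p.d * q.b) := rfl
@[simp] lemma mul_d (p q : Q4 w) : (p * q).d =
    p.a * q.d + p.d * q.a + p.b * q.b + p.c * q.c := rfl

instance : CommRing (Q4 w) where
  add_assoc p q r := by ext <;> simp <;> ring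
  zero_add p := by ext <;> simp
  add_zero p := by ext <;> simp
  add_comm p q := by ext <;> simp <;> ring
  left_distrib p q r := by ext <;> simp <;> ring
  right_distrib p q r := by ext <;> simp <;> ring
  zero_mul p := by ext <;> simp
  mul_zero p := by ext <;> simp
  mul_assoc p q r := by ext <;> simp <;> ring
  one_mul p := by ext <;> simp
  mul_one p := by ext <;> simp
  mul_comm p q := by ext <;> simp <;> ring
  neg_add_cancel p := by ext <;> simp
  sub_eq_add_neg p q := by ext <;> simp [sub_eq_add_neg]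
  nsmul := nsmulRec
  zsmul := zsmulRec

/-- The structure map. -/
def inc : C →+* Q4 w where
  toFun c := ⟨c, 0, 0, 0⟩
  map_one' := rfl
  map_zero' := rfl
  map_mul' p q := by ext <;> simp
  map_add' p q := by ext <;> simp

/-- The element `x`. -/
def x : Q4 w := ⟨0, 1, 0, 0⟩
/-- The element `y`. -/
def y : Q4 w := ⟨0, 0, 1, 0⟩

lemma x_mul_y : (x : Q4 w) * y = -inc w := by
  ext <;> simp [x, y, inc]

lemma x_sq : (x : Q4 w) ^ 2 = y ^ 2 := by
  ext <;> simp [x, y, pow_two]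

lemma y_sq_mul_inc_ne_zero {p : C} (hp : p ≠ 0) : (y : Q4 w) ^ 2 * inc p ≠ 0 := by
  intro h
  apply hp
  have := congrArg Q4.d h
  simpa [y, inc, pow_two] using this

end Q4

section

open MvPolynomial

/-- In the algebra `k[z_1, ..., z_6]/(z_i ^ 2)` the product of all the variables is nonzero. -/
lemma prod_X_notMem (k : Type) [Field k] :
    (X 0 * X 1 * X 2 * X 3 * X 4 * X 5 : MvPolynomial (Fin 6) k) ∉
      Ideal.span ((fun s : Fin 6 →₀ ℕ => monomial s (1 : k)) ''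
        (Set.range fun i : Fin 6 => Finsupp.single i 2)) := by
  intro h
  rw [MvPolynomial.mem_ideal_span_monomial_image] at h
  have hprod : (X 0 * X 1 * X 2 * X 3 * X 4 * X 5 : MvPolynomial (Fin 6) k) =
      monomial (Finsupp.single 0 1 + Finsupp.single 1 1 + Finsupp.single 2 1 + Finsupp.single 3 1
        + Finsupp.single 4 1 + Finsupp.single 5 1) 1 := by
    simp [X, monomial_mul]
  have := h (Finsupp.single 0 1 + Finsupp.single 1 1 + Finsupp.single 2 1 + Finsupp.single 3 1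
        + Finsupp.single 4 1 + Finsupp.single 5 1) (by rw [hprod]; simp [mem_support_iff])
  obtain ⟨_, ⟨i, rfl⟩, hi⟩ := this
  have h2 := hi i
  fin_cases i <;> simp at h2

end

end Pool.Agent.Helper66
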