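import Pool.Agent.Helper66.PdSocle
import Pool.Agent.Helper66.QuadRing
import Pool.Agent.Helper66.QuadIdent
import Pool.Agent.Helper66.QuadHeight

set_option autoImplicit false

namespace Pool.Agent.Helper66

open MvPolynomial CategoryTheory

section main

variable (k : Type) [Field k]


/-- The twelve quadrics. -/
noncomputable def quads : Fin 12 → (MvPolynomial (Fin 24) k) :=
  ![X 0 ^ 2, X 1 ^ 2, X 2 ^ 2, X 4 ^ 2, X 5 ^ 2, X 6 ^ 2,
    X 3 ^ 2 - X 7 ^ 2,
    X 0 * X 4 + X 1 * X 5 + X 2 * X 6 + X 3 * X 7,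
    X 8 * X 0 + X 9 * X 1 + X 10 * X 2 + X 11 * X 3,
    X 12 * X 8 + X 13 * X 9 + X 14 * X 10 + X 15 * X 11,
    X 16 * X 8 + X 17 * X 9 + X 18 * X 10 + X 19 * X 11,
    X 20 * X 8 + X 21 * X 9 + X 22 * X 10 + X 23 * X 11]

lemma quads_isHomogeneous (i : Fin 12) : (quads k i).IsHomogeneous 2 := by
  have hX : ∀ i : Fin 24, (X i : (MvPolynomial (Fin 24) k)).IsHomogeneous 1 := fun i => isHomogeneous_X k i
  have h2 : ∀ i : Fin 24, (X i ^ 2 : (MvPolynomial (Fin 24) k)).IsHomogeneous 2 := fun i => by
    simpa using (hX i).pow 2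
  have hm : ∀ i j : Fin 24, (X i * X j : (MvPolynomial (Fin 24) k)).IsHomogeneous 2 := fun i j => (hX i).mul (hX j)
  fin_cases i
  · exact h2 _
  · exact h2 _
  · exact h2 _
  · exact h2 _
  · exact h2 _
  · exact h2 _
  · exact (h2 _).sub (h2 _)
  · exact (((hm _ _).add (hm _ _)).add (hm _ _)).add (hm _ _)
  · exact (((hm _ _).add (hm _ _)).add (hm _ _)).add (hm _ _)
  · exact (((hm _ _).add (hm _ _)).add (hm _ _)).add (hm _ _)
  · exact (((hm _ _).add (hm _ _)).add (hm _ _)).add (hm _ _)
  · exact (((hm _ _).add (hm _ _)).add (hm _ _)).add (hm _ _)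

/-- The ideal generated by the twelve quadrics. -/
noncomputable def quadIdeal : Ideal (MvPolynomial (Fin 24) k) := Ideal.span (Set.range (quads k))

lemma quads_mem (i : Fin 12) : quads k i ∈ quadIdeal k := Ideal.subset_span ⟨i, rfl⟩

/-- The socle element. -/
noncomputable def soc : (MvPolynomial (Fin 24) k) := X 11 * X 7 * (X 0 * X 1 * X 2 * X 4 * X 5 * X 6)

lemma X_mul_soc_mem (i : Fin 24) : X i * soc k ∈ quadIdeal k := by
  let π := Ideal.Quotient.mk (quadIdeal k)
  have hz : ∀ i, π (quads k i) = 0 := fun i => Ideal.Quotient.eq_zero_iff_mem.2 (quads_mem k i)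
  have e0 : π (X 0) ^ 2 = 0 := by simpa [quads] using hz 0
  have e1 : π (X 1) ^ 2 = 0 := by simpa [quads] using hz 1
  have e2 : π (X 2) ^ 2 = 0 := by simpa [quads] using hz 2
  have e3 : π (X 4) ^ 2 = 0 := by simpa [quads] using hz 3
  have e4 : π (X 5) ^ 2 = 0 := by simpa [quads] using hz 4
  have e5 : π (X 6) ^ 2 = 0 := by simpa [quads] using hz 5
  have e6 : π (X 3) ^ 2 - π (X 7) ^ 2 = 0 := by simpa [quads] using hz 6
  have e7 : π (X 0) * π (X 4) + π (X 1) * π (X 5) + π (X 2) * π (X 6) + π (X 3) * π (X 7) = 0 := by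
    simpa [quads] using hz 7
  have e8 : π (X 8) * π (X 0) + π (X 9) * π (X 1) + π (X 10) * π (X 2) + π (X 11) * π (X 3) = 0 := by
    simpa [quads] using hz 8
  have e9 : π (X 12) * π (X 8) + π (X 13) * π (X 9) + π (X 14) * π (X 10) +
      π (X 15) * π (X 11) = 0 := by
    simpa [quads] using hz 9
  have e10 : π (X 16) * π (X 8) + π (X 17) * π (X 9) + π (X 18) * π (X 10) +
      π (X 19) * π (X 11) = 0 := by
    simpa [quads] using hz 10
  have e11 : π (X 20) * π (X 8) + π (X 21) * π (X 9) + π (X 22) * π (X 10) +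
      π (X 23) * π (X 11) = 0 := by
    simpa [quads] using hz 11
  obtain ⟨⟨h0, h1, h2, h3⟩, ⟨h4, h5, h6, h7⟩, ⟨h8, h9, h10, h11⟩, hb⟩ :=
    socle_all e0 e1 e2 e3 e4 e5 e6 e7 e8
  obtain ⟨h12, h13, h14, h15⟩ := hb _ _ _ _ e9
  obtain ⟨h16, h17, h18, h19⟩ := hb _ _ _ _ e10
  obtain ⟨h20, h21, h22, h23⟩ := hb _ _ _ _ e11
  rw [← Ideal.Quotient.eq_zero_iff_mem]
  show π (X i * soc k) = 0
  simp only [soc, map_mul]
  fin_cases i
  · exact h0
  · exact h1
  · exact h2
  · exact h3
  · exact h4
  · exact h5
  · exact h6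
  · exact h7
  · exact h8
  · exact h9
  · exact h10
  · exact h11
  · exact h12
  · exact h13
  · exact h14
  · exact h15
  · exact h16
  · exact h17
  · exact h18
  · exact h19
  · exact h20
  · exact h21
  · exact h22
  · exact h23

lemma soc_notMem : soc k ∉ quadIdeal k := by
  let J : Ideal (MvPolynomial (Fin 6) k) :=
    Ideal.span ((fun s : Fin 6 →₀ ℕ => monomial s (1 : k)) ''
        (Set.range fun i : Fin 6 => Finsupp.single i 2))
  let C := MvPolynomial (Fin 6) k ⧸ J
  let z : Fin 6 → C := fun i => Ideal.Quotient.mk J (X i)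
  have hz : ∀ i, z i ^ 2 = 0 := by
    intro i
    simp only [z]
    rw [← map_pow, Ideal.Quotient.eq_zero_iff_mem]
    apply Ideal.subset_span
    refine ⟨Finsupp.single i 2, ⟨i, rfl⟩, ?_⟩
    simp [X, monomial_pow]
  have hprod : z 0 * z 1 * z 2 * z 3 * z 4 * z 5 ≠ 0 := by
    simp only [z]
    rw [← map_mul, ← map_mul, ← map_mul, ← map_mul, ← map_mul, Ne,
      Ideal.Quotient.eq_zero_iff_mem]
    exact prod_X_notMem k
  let w : C := z 0 * z 3 + z 1 * z 4 + z 2 * z 5
  let c0 : k →+* Q4 w := (Q4.inc (w := w)).comp (algebraMap k C)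
  let v : Fin 24 → Q4 w :=
    ![Q4.inc (z 0), Q4.inc (z 1), Q4.inc (z 2), Q4.x,
      Q4.inc (z 3), Q4.inc (z 4), Q4.inc (z 5), Q4.y,
      Q4.inc (z 3), Q4.inc (z 4), Q4.inc (z 5), Q4.y,
      0, 0, 0, 0, 0, 0, 0, 0, 0, 0, 0, 0]
  let Θ : (MvPolynomial (Fin 24) k) →+* Q4 w := eval₂Hom c0 v
  have hΘ : ∀ i, Θ (X i) = v i := fun i => by simp [Θ]
  have hinc : ∀ i, (Q4.inc (z i) : Q4 w) ^ 2 = 0 := fun i => by
    rw [← map_pow, hz, map_zero]
  have hxy : (Q4.x : Q4 w) * Q4.y = -(Q4.inc (z 0) * Q4.inc (z 3) + Q4.inc (z 1) * Q4.inc (z 4) +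
      Q4.inc (z 2) * Q4.inc (z 5)) := by
    rw [Q4.x_mul_y]
    simp only [w, map_add, map_mul]
  have hker : quadIdeal k ≤ RingHom.ker Θ := by
    unfold quadIdeal
    rw [Ideal.span_le]
    rintro _ ⟨i, rfl⟩
    rw [SetLike.mem_coe, RingHom.mem_ker]
    fin_cases i
    · simp [quads, hΘ, v, hinc]
    · simp [quads, hΘ, v, hinc]
    · simp [quads, hΘ, v, hinc]
    · simp [quads, hΘ, v, hinc]
    · simp [quads, hΘ, v, hinc]
    · simp [quads, hΘ, v, hinc]
    · simp [quads, hΘ, v, Q4.x_sq]
    · simp [quads, hΘ, v, hxy]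
    · simp [quads, hΘ, v]
      linear_combination hxy
    · simp [quads, hΘ, v]
    · simp [quads, hΘ, v]
    · simp [quads, hΘ, v]
  intro h
  have h1 : Θ (soc k) = 0 := hker h
  have h2 : Θ (soc k) = (Q4.y : Q4 w) ^ 2 *
      Q4.inc (z 0 * z 1 * z 2 * z 3 * z 4 * z 5) := by
    simp [soc, hΘ, v]
    ring
  exact Q4.y_sq_mul_inc_ne_zero hprod (h2.symm.trans h1)

lemma quadIdeal_ne_top : quadIdeal k ≠ ⊤ := fun h => soc_notMem k (by rw [h]; trivial)

/-- hypothesis check for the block lemma -/
lemma le_height_of_prime (P : Ideal (MvPolynomial (Fin 24) k)) [hp : P.IsPrime] (hI : quadIdeal k ≤ P) :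
    (11 : ℕ∞) ≤ P.height := by
  have hq : ∀ i, quads k i ∈ P := fun i => hI (quads_mem k i)
  have m0 : (X 0 : (MvPolynomial (Fin 24) k)) ∈ P := hp.mem_of_pow_mem 2 (by simpa [quads] using hq 0)
  have m1 : (X 1 : (MvPolynomial (Fin 24) k)) ∈ P := hp.mem_of_pow_mem 2 (by simpa [quads] using hq 1)
  have m2 : (X 2 : (MvPolynomial (Fin 24) k)) ∈ P := hp.mem_of_pow_mem 2 (by simpa [quads] using hq 2)
  have m4 : (X 4 : (MvPolynomial (Fin 24) k)) ∈ P := hp.mem_of_pow_mem 2 (by simpa [quads] using hq 3)
  have m5 : (X 5 : (MvPolynomial (Fin 24) k)) ∈ P := hp.mem_of_pow_mem 2 (by simpa [quads] using hq 4)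
  have m6 : (X 6 : (MvPolynomial (Fin 24) k)) ∈ P := hp.mem_of_pow_mem 2 (by simpa [quads] using hq 5)
  have h67 : (X 3 ^ 2 - X 7 ^ 2 : (MvPolynomial (Fin 24) k)) ∈ P := by simpa [quads] using hq 6
  have h7 : (X 0 * X 4 + X 1 * X 5 + X 2 * X 6 + X 3 * X 7 : (MvPolynomial (Fin 24) k)) ∈ P := by
    simpa [quads] using hq 7
  have h37 : (X 3 * X 7 : (MvPolynomial (Fin 24) k)) ∈ P := by
    have : (X 3 * X 7 : (MvPolynomial (Fin 24) k)) = (X 0 * X 4 + X 1 * X 5 + X 2 * X 6 + X 3 * X 7) -
      (X 4 * X 0 + X 5 * X 1 + X 6 * X 2) := by ring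
    rw [this]
    exact P.sub_mem h7 (P.add_mem (P.add_mem (P.mul_mem_left _ m0) (P.mul_mem_left _ m1))
      (P.mul_mem_left _ m2))
  have m37 : (X 3 : (MvPolynomial (Fin 24) k)) ∈ P ∧ (X 7 : (MvPolynomial (Fin 24) k)) ∈ P := by
    rcases hp.mem_or_mem h37 with h | h
    · refine ⟨h, hp.mem_of_pow_mem 2 ?_⟩
      have : (X 7 ^ 2 : (MvPolynomial (Fin 24) k)) = X 3 * X 3 - (X 3 ^ 2 - X 7 ^ 2) := by ring
      rw [this]
      exact P.sub_mem (P.mul_mem_left _ h) h67
    · refine ⟨hp.mem_of_pow_mem 2 ?_, h⟩
      have : (X 3 ^ 2 : (MvPolynomial (Fin 24) k)) = X 7 * X 7 + (X 3 ^ 2 - X 7 ^ 2) := by ring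
      rw [this]
      exact P.add_mem (P.mul_mem_left _ h) h67
  obtain ⟨m3, m7⟩ := m37
  have m : ∀ i : Fin 24, i < 8 → X i ∈ P := by
    intro i hi
    fin_cases i
    · exact m0
    · exact m1
    · exact m2
    · exact m3
    · exact m4
    · exact m5
    · exact m6
    · exact m7
    all_goals exact absurd hi (by decide)
  have g0 : (X 12 * X 8 + X 13 * X 9 + X 14 * X 10 + X 15 * X 11 : (MvPolynomial (Fin 24) k)) ∈ P := by
    simpa [quads] using hq 9
  have g1 : (X 16 * X 8 + X 17 * X 9 + X 18 * X 10 + X 19 * X 11 : (MvPolynomial (Fin 24) k)) ∈ P := by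
    simpa [quads] using hq 10
  have g2 : (X 20 * X 8 + X 21 * X 9 + X 22 * X 10 + X 23 * X 11 : (MvPolynomial (Fin 24) k)) ∈ P := by
    simpa [quads] using hq 11
  by_cases ha0 : (X 8 : (MvPolynomial (Fin 24) k)) ∈ P
  · by_cases ha1 : (X 9 : (MvPolynomial (Fin 24) k)) ∈ P
    · by_cases ha2 : (X 10 : (MvPolynomial (Fin 24) k)) ∈ P
      · by_cases ha3 : (X 11 : (MvPolynomial (Fin 24) k)) ∈ P
        · have := le_height_of_X_mem (k := k) (N := 24) 12 (by norm_num) P (by
            intro i hi
            fin_cases i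
            · exact m0
            · exact m1
            · exact m2
            · exact m3
            · exact m4
            · exact m5
            · exact m6
            · exact m7
            · exact ha0
            · exact ha1
            · exact ha2
            · exact ha3
            all_goals exact absurd hi (by decide))
          exact le_trans (by norm_num) this
        · exact le_height_block 11 ![15, 19, 23]
            ![X 12 * X 8 + X 13 * X 9 + X 14 * X 10, X 16 * X 8 + X 17 * X 9 + X 18 * X 10,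
              X 20 * X 8 + X 21 * X 9 + X 22 * X 10]
            (by decide) (by decide) (by decide) (by decide)
            (by intro t r; fin_cases r <;> simp [w])
            (by
              intro r h
              have := congrArg (eval (fun i : Fin 24 =>
                if i = (![15, 19, 23] : Fin 3 → Fin 24) r ∨ i = 11 then (1 : k) else 0)) h
              fin_cases r <;> simp at this)
            P m ha3 (by
              intro r
              fin_cases r
              · convert g0 using 1; simp; ring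
              · convert g1 using 1; simp; ring
              · convert g2 using 1; simp; ring)
      · exact le_height_block 10 ![14, 18, 22]
            ![X 12 * X 8 + X 13 * X 9 + X 15 * X 11, X 16 * X 8 + X 17 * X 9 + X 19 * X 11,
              X 20 * X 8 + X 21 * X 9 + X 23 * X 11]
            (by decide) (by decide) (by decide) (by decide)
            (by intro t r; fin_cases r <;> simp [w])
            (by
              intro r h
              have := congrArg (eval (fun i : Fin 24 =>
                if i = (![14, 18, 22] : Fin 3 → Fin 24) r ∨ i = 10 then (1 : k) else 0)) h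
              fin_cases r <;> simp at this)
            P m ha2 (by
              intro r
              fin_cases r
              · convert g0 using 1; simp; ring
              · convert g1 using 1; simp; ring
              · convert g2 using 1; simp; ring)
    · exact le_height_block 9 ![13, 17, 21]
            ![X 12 * X 8 + X 14 * X 10 + X 15 * X 11, X 16 * X 8 + X 18 * X 10 + X 19 * X 11,
              X 20 * X 8 + X 22 * X 10 + X 23 * X 11]
            (by decide) (by decide) (by decide) (by decide)
            (by intro t r; fin_cases r <;> simp [w])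
            (by
              intro r h
              have := congrArg (eval (fun i : Fin 24 =>
                if i = (![13, 17, 21] : Fin 3 → Fin 24) r ∨ i = 9 then (1 : k) else 0)) h
              fin_cases r <;> simp at this)
            P m ha1 (by
              intro r
              fin_cases r
              · convert g0 using 1; simp; ring
              · convert g1 using 1; simp; ring
              · convert g2 using 1; simp; ring)
  · exact le_height_block 8 ![12, 16, 20]
            ![X 13 * X 9 + X 14 * X 10 + X 15 * X 11, X 17 * X 9 + X 18 * X 10 + X 19 * X 11,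
              X 21 * X 9 + X 22 * X 10 + X 23 * X 11]
            (by decide) (by decide) (by decide) (by decide)
            (by intro t r; fin_cases r <;> simp [w])
            (by
              intro r h
              have := congrArg (eval (fun i : Fin 24 =>
                if i = (![12, 16, 20] : Fin 3 → Fin 24) r ∨ i = 8 then (1 : k) else 0)) h
              fin_cases r <;> simp at this)
            P m ha0 (by
              intro r
              fin_cases r
              · convert g0 using 1; simp; ring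
              · convert g1 using 1; simp; ring
              · convert g2 using 1; simp; ring)

lemma le_height_quadIdeal : (11 : ℕ∞) ≤ (quadIdeal k).height := by
  rw [Ideal.height_eq_inf_minimalPrimes]
  refine le_iInf₂ fun P hP => ?_
  have : P.IsPrime := hP.1.1
  exact le_height_of_prime k P hP.1.2

lemma height_quadIdeal_le : (quadIdeal k).height ≤ (12 : ℕ∞) := by
  refine le_trans (Ideal.height_le_spanFinrank _ (quadIdeal_ne_top k)) ?_
  have h1 : Submodule.spanFinrank (quadIdeal k) ≤ (Set.range (quads k)).ncard :=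
    Submodule.spanFinrank_span_le_ncard_of_finite (Set.finite_range _)
  have h2 : (Set.range (quads k)).ncard ≤ 12 := by
    rw [← Set.image_univ]
    refine le_trans (Set.ncard_image_le (Set.finite_univ)) ?_
    simp [Set.ncard_univ]
  exact_mod_cast h1.trans h2

/-- The projective dimension of the quotient by the twelve quadrics is at least `24`. -/
theorem not_pd_le (n : ℕ) (hn : n < 24) :
    ¬ HasProjectiveDimensionLE (ModuleCat.of (MvPolynomial (Fin 24) k) ((MvPolynomial (Fin 24) k) ⧸ quadIdeal k)) n :=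
  not_hasProjectiveDimensionLE_of_socle (quadIdeal k) (soc k) (soc_notMem k)
    (X_mul_soc_mem k) n hn

end main

end Pool.Agent.Helper66
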